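import Pool.Agent.L5helper88.CP.Model

/-!
# The real zeros of the permanent are Zariski dense
-/

set_option autoImplicit false

open Finset MvPolynomial

namespace Pool.Agent.L5helper59.ZT

open Pool.Agent.L5helper88.Model

/-- `f` does not depend on the variable `i` -/
private def Free {ι : Type} [DecidableEq ι] (i : ι) (f : MvPolynomial ι ℝ) : Prop :=
  ∀ (x : ι → ℝ) (t : ℝ), eval (Function.update x i t) f = eval x f

private lemma exists_reduce {ι : Type} [DecidableEq ι] (i : ι) (P A B : MvPolynomial ι ℝ)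
    (hP : P = X i * A + B) (hA : Free i A) (hB : Free i B) (Q : MvPolynomial ι ℝ) :
    ∃ (d : ℕ) (R : MvPolynomial ι ℝ), Free i R ∧ P ∣ A ^ d * Q - R := by
  induction Q using MvPolynomial.induction_on with
  | C a => exact ⟨0, C a, fun x t => by simp, by simp⟩
  | add p q hp hq =>
    obtain ⟨d, R, hR, u, hu⟩ := hp
    obtain ⟨e, S, hS, v, hv⟩ := hq
    refine ⟨d + e, A ^ e * R + A ^ d * S, fun x t => ?_, A ^ e * u + A ^ d * v, ?_⟩
    · simp only [map_add, map_mul, map_pow, hA x t, hR x t, hS x t]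
    · linear_combination A ^ e * hu + A ^ d * hv
  | mul_X p n hp =>
    obtain ⟨d, R, hR, u, hu⟩ := hp
    by_cases hn : n = i
    · subst hn
      refine ⟨d + 1, - (R * B), fun x t => ?_, X n * A * u + R, ?_⟩
      · simp only [map_neg, map_mul, hR x t, hB x t]
      · linear_combination X n * A * hu - R * hP
    · refine ⟨d, R * X n, fun x t => ?_, u * X n, ?_⟩
      · simp only [map_mul, hR x t, eval_X, Function.update_of_ne hn]
      · linear_combination X n * hu

private lemma exists_zero {ι : Type} [DecidableEq ι] (i : ι) (P A B : MvPolynomial ι ℝ)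
    (hP : P = X i * A + B) (hA : Free i A) (hB : Free i B) (hA0 : A ≠ 0) (hp : Prime P)
    (Q : MvPolynomial ι ℝ) (h : ¬ P ∣ Q) :
    ∃ x : ι → ℝ, eval x P = 0 ∧ eval x Q ≠ 0 := by
  by_contra hc
  push Not at hc
  have key : ∀ x : ι → ℝ, eval x A ≠ 0 →
      eval (Function.update x i (- eval x B / eval x A)) P = 0 := by
    intro x hx
    rw [hP, map_add, map_mul, eval_X, Function.update_self, hA, hB]
    field_simp
    ring
  obtain ⟨d, R, hR, u, hu⟩ := exists_reduce i P A B hP hA hB Q
  have h1 : A * R = 0 := by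
    apply MvPolynomial.funext
    intro x
    rw [map_mul, map_zero]
    by_cases hx : eval x A = 0
    · rw [hx, zero_mul]
    · have h2 := key x hx
      have h3 := hc _ h2
      have h4 := congrArg (eval (Function.update x i (- eval x B / eval x A))) hu
      rw [map_sub, map_mul, map_mul, h3, h2, hR] at h4
      have h5 : eval x R = 0 := by linarith
      rw [h5, mul_zero]
  have h2 : R = 0 := (mul_eq_zero.1 h1).resolve_left hA0
  have h3 : P ∣ A ^ d * Q := ⟨u, by rw [← hu, h2, sub_zero]⟩
  rcases hp.dvd_or_dvd h3 with h4 | h4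
  · obtain ⟨v, hv⟩ := hp.dvd_of_dvd_pow h4
    apply hA0
    apply MvPolynomial.funext
    intro x
    rw [map_zero]
    by_contra hx
    apply hx
    have h5 := congrArg (eval (Function.update x i (- eval x B / eval x A))) hv
    rw [hA, map_mul, key x hx, zero_mul] at h5
    exact h5
  · exact h h4

/-- T3 (hypothesis `hp` instead of T1) -/
theorem exists_real_zero (m : ℕ) (hm : 1 ≤ m) (hp : Prime (perm ℝ m))
    (Q : MvPolynomial (Fin m × Fin m) ℝ) (h : ¬ perm ℝ m ∣ Q) :
    ∃ x : Fin m × Fin m → ℝ, eval x (perm ℝ m) = 0 ∧ eval x Q ≠ 0 := by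
  classical
  set o : Fin m := ⟨0, hm⟩ with ho
  set A : MvPolynomial (Fin m × Fin m) ℝ :=
    ∑ σ ∈ univ.filter (fun σ : Equiv.Perm (Fin m) => σ o = o), ∏ k ∈ univ.erase o, X (σ k, k)
    with hA
  set B : MvPolynomial (Fin m × Fin m) ℝ :=
    ∑ σ ∈ univ.filter (fun σ : Equiv.Perm (Fin m) => ¬ σ o = o), ∏ k, X (σ k, k) with hB
  have hP : perm ℝ m = X (o, o) * A + B := by
    have h1 : perm ℝ m = ∑ σ : Equiv.Perm (Fin m), ∏ k, X (σ k, k) := rfl
    rw [h1, ← Finset.sum_filter_add_sum_filter_not univ (fun σ : Equiv.Perm (Fin m) => σ o = o),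
      hA, Finset.mul_sum]
    congr 1
    refine Finset.sum_congr rfl fun σ hσ => ?_
    rw [← Finset.mul_prod_erase univ _ (Finset.mem_univ o), (Finset.mem_filter.1 hσ).2]
  refine exists_zero (o, o) _ A B hP ?_ ?_ ?_ hp Q h
  · intro x t
    rw [hA, map_sum, map_sum]
    refine Finset.sum_congr rfl fun σ _ => ?_
    rw [map_prod, map_prod]
    refine Finset.prod_congr rfl fun k hk => ?_
    rw [eval_X, eval_X, Function.update_of_ne]
    intro he
    exact (Finset.mem_erase.1 hk).1 (Prod.ext_iff.1 he).2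
  · intro x t
    rw [hB, map_sum, map_sum]
    refine Finset.sum_congr rfl fun σ hσ => ?_
    rw [map_prod, map_prod]
    refine Finset.prod_congr rfl fun k _ => ?_
    rw [eval_X, eval_X, Function.update_of_ne]
    intro he
    have h1 : k = o := (Prod.ext_iff.1 he).2
    have h2 : σ k = o := (Prod.ext_iff.1 he).1
    exact (Finset.mem_filter.1 hσ).2 (h1 ▸ h2)
  · intro h0
    have h1 : eval (fun _ => (1 : ℝ)) A = 0 := by rw [h0, map_zero]
    rw [hA, map_sum] at h1
    simp only [map_prod, eval_X, Finset.prod_const_one, Finset.sum_const, nsmul_eq_mul,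
      mul_one, Nat.cast_eq_zero, Finset.card_eq_zero] at h1
    have h2 : (1 : Equiv.Perm (Fin m)) ∈ univ.filter (fun σ : Equiv.Perm (Fin m) => σ o = o) := by
      simp
    rw [h1] at h2
    simp at h2

end Pool.Agent.L5helper59.ZT
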