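import Pool.Agent.L5helper88.CP.Size

set_option autoImplicit false

/-! Normalised limits of polynomials of bounded degree. -/

open Finset MvPolynomial Filter

namespace Pool.Agent.L5helper59.ZT

open Pool.Agent.L5helper88.CP

/-- L7 (compactness) -/
theorem exists_normalised {τ : Type} [Fintype τ] [DecidableEq τ] (g : ℕ → MvPolynomial τ ℂ)
    (D : ℕ) (hdeg : ∀ k, (g k).totalDegree ≤ D) (hne : ∀ k, g k ≠ 0) :
    ∃ (φ : ℕ → ℕ) (r : ℕ → ℂ) (g₀ : MvPolynomial τ ℂ), StrictMono φ ∧ (∀ k, r k ≠ 0) ∧ g₀ ≠ 0 ∧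
      CT (fun k => C (r k) * g (φ k)) g₀ := by
  classical
  have hfin : {e : τ →₀ ℕ | e.degree ≤ D}.Finite := by
    refine Set.Finite.subset (Set.finite_Iic (Finsupp.equivFunOnFinite.symm fun _ : τ => D)) ?_
    intro e he
    simp only [Set.mem_ofPred_eq] at he
    rw [Set.mem_Iic]
    intro i
    simp only [Finsupp.equivFunOnFinite_symm_apply_apply]
    exact (Finsupp.le_degree i e).trans he
  set E : Finset (τ →₀ ℕ) := hfin.toFinset with hE
  have hmem : ∀ e, e ∈ E ↔ e.degree ≤ D := fun e => by simp [hE]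
  have h0 : ∀ k e, e ∉ E → coeff e (g k) = 0 := by
    intro k e he
    rw [hmem, not_le] at he
    apply coeff_eq_zero_of_totalDegree_lt
    exact lt_of_le_of_lt (hdeg k) he
  have hEne : E.Nonempty := ⟨0, by rw [hmem]; simp⟩
  have h1 : ∀ k, ∃ e ∈ E, ∀ e' ∈ E, ‖coeff e' (g k)‖ ≤ ‖coeff e (g k)‖ := fun k =>
    E.exists_max_image (fun e => ‖coeff e (g k)‖) hEne
  choose e heE hemax using h1
  have hc : ∀ k, coeff (e k) (g k) ≠ 0 := by
    intro k hk
    apply hne k
    ext d
    rw [coeff_zero]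
    by_cases hd : d ∈ E
    · have := hemax k d hd
      rw [hk, norm_zero] at this
      exact norm_le_zero_iff.1 this
    · exact h0 k d hd
  set v : ℕ → (E → ℂ) := fun k d => (coeff (e k) (g k))⁻¹ * coeff (d : τ →₀ ℕ) (g k) with hv
  set K : Set (E → ℂ) := Metric.closedBall 0 1 ∩ ⋃ d : E, {w : E → ℂ | w d = 1} with hK
  have hKc : IsCompact K := by
    refine (isCompact_closedBall _ _).inter_right ?_
    refine isClosed_iUnion_of_finite fun d => ?_
    exact isClosed_eq (continuous_apply d) continuous_const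
  have hvK : ∀ k, v k ∈ K := by
    intro k
    refine ⟨?_, ?_⟩
    · rw [mem_closedBall_zero_iff, pi_norm_le_iff_of_nonneg zero_le_one]
      intro d
      rw [hv]
      simp only [norm_mul, norm_inv]
      rw [inv_mul_le_iff₀ (norm_pos_iff.2 (hc k)), mul_one]
      exact hemax k d d.2
    · refine Set.mem_iUnion.2 ⟨⟨e k, heE k⟩, ?_⟩
      simp only [hv, Set.mem_ofPred_eq]
      exact inv_mul_cancel₀ (hc k)
  obtain ⟨a, haK, φ, hφ, hlim⟩ := hKc.tendsto_subseq hvK
  refine ⟨φ, fun k => (coeff (e (φ k)) (g (φ k)))⁻¹, ∑ d : E, monomial (d : τ →₀ ℕ) (a d), hφ,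
    fun k => inv_ne_zero (hc _), ?_, ?_⟩
  · obtain ⟨d, hd⟩ := Set.mem_iUnion.1 haK.2
    simp only [Set.mem_ofPred_eq] at hd
    intro h
    have h2 := congrArg (coeff (d : τ →₀ ℕ)) h
    rw [coeff_sum, coeff_zero] at h2
    simp only [coeff_monomial] at h2
    rw [Finset.sum_eq_single d] at h2
    · rw [if_pos rfl, hd] at h2
      exact one_ne_zero h2
    · intro b _ hb
      rw [if_neg]
      intro h3
      exact hb (Subtype.ext h3)
    · intro h3
      exact absurd (mem_univ d) h3
  · intro d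
    simp only [coeff_C_mul, coeff_sum, coeff_monomial]
    by_cases hd : d ∈ E
    · rw [Finset.sum_eq_single (⟨d, hd⟩ : E)]
      · rw [if_pos rfl]
        exact (tendsto_pi_nhds.1 hlim) ⟨d, hd⟩
      · intro b _ hb
        rw [if_neg]
        intro h3
        exact hb (Subtype.ext h3)
      · intro h3
        exact absurd (mem_univ _) h3
    · rw [Finset.sum_eq_zero]
      · have : (fun k => (coeff (e (φ k)) (g (φ k)))⁻¹ * coeff d (g (φ k))) = fun _ => (0 : ℂ) := by
          funext k
          rw [h0 _ d hd, mul_zero]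
        rw [this]
        exact tendsto_const_nhds
      · intro b _
        rw [if_neg]
        rintro rfl
        exact hd b.2

end Pool.Agent.L5helper59.ZT
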